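import Pool.Agent.Q44.TI.Fin

/-!
# Two-torsion of the Tate-Shafarevich group and the isogeny Selmer groups in thin families of quadratic
# twists of an arbitrary elliptic curve with exactly one rational point of order two

Let `E : y² = x³ + a x² + b x` be any curve with integral coefficients such that `b` and `a² - 4 b` are not
squares (`a² - 4 b` is not a square: `(0, 0)` is the only rational point of order two; `b` is not a
square: the same for the isogenous curve `E' : y² = x³ - 2 a x² + (a² - 4 b) x`). Let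
`E_D : y² = x³ + a D x² + b D² x` be the twist by `D`.

The class consists of the squarefree integers `D` all of whose prime factors `p` are
* active: `p` is `1` modulo `8`, does not divide `b (a² - 4 b)`, and all the prime factors of
  `b (a² - 4 b)` are squares modulo `p`, or
* passive: `b` and `a² - 4 b` are not squares modulo `p`.

Both kinds of primes have positive density. The results, for every such curve:

* for `D` in the class the orders of the two isogeny Selmer groups are `# U(D) 2 ^ r(D)` and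
  `# U'(D) 2 ^ r(D)` with the same `r(D)`, the corank of an explicit matrix over `𝔽₂` of quadratic residue
  symbols, whose diagonal contains the quartic information on the curve at the active primes, and with the
  parts `U(D)`, `U'(D)` supported on the primes which divide `2 b (a² - 4 b)`, which have between
  `1` and `2 ^ (ω + 1)` elements;
* the `2`-torsion of the Tate-Shafarevich group of `E_D` is finite, and
  `4 · 2 ^ rank · # Ш[2]` is at most the product of the orders of the two Selmer groups; so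
  `2 ^ rank · # Ш[2] ≤ 4 ^ (ω + r(D))`;
* the joint law of the Selmer groups of the twists by `m_1 D, …, m_M D`, for any members `m_1, …, m_M` of
  the class with different absolute values: the numbers `r` are independent, and `r` has the probability
  `α_r = κ / ((2 - 1) (4 - 1) ⋯ (2 ^ r - 1))`, `κ = (1 - 1/2) (1 - 1/8) (1 - 1/32) ⋯`, the sum of the
  `α_r` being `1`;
* for every `t`, all the curves `E_{m_1 D}, …, E_{m_M D}` have `2 ^ rank · # Ш[2] ≤ 4 ^ (ω + t)` for a
  proportion of the `D` of the class which is asymptotically at least `(α_0 + ⋯ + α_t) ^ M`, and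
  `1 - (α_0 + ⋯ + α_t) ≤ 1 / ((2 - 1) (4 - 1) ⋯ (2 ^ (t + 1) - 1))`;
* the class has at least `c X / (log X) ^ (1 - δ)` elements up to `X`, with `c > 0` and `δ > 0`.

The asymptotic law of matrices of residue symbols is that of `Pool.Agent.Q283.GM` (the family of `X_0(49)`)
and of the starting library.
-/

set_option autoImplicit false

open Finset Filter

namespace Pool.Agent.Results.MP_a43263_nt.TwoIsogenySelmerLaw

/-- the curve `y² = x³ + A x² + B x` over `ℚ` -/
def E (A B : ℤ) : WeierstrassCurve ℚ :=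
  { a₁ := 0, a₂ := (A : ℚ), a₃ := 0, a₄ := (B : ℚ), a₆ := 0 }

/-- the rank of the group of rational points of `y² = x³ + A x² + B x` -/
noncomputable def rank (A B : ℤ) : ℕ := Module.finrank ℤ (E A B).toAffine.Point

open Classical in
/-- the `2`-torsion of the Tate-Shafarevich group of `y² = x³ + A x² + B x` -/
def ShaTwo (A B : ℤ) : Type := {x : Pool.Agent.W262.SH.Sha (E A B) // x + x = 0}

/-- `z` is, up to squares, the abscissa of a point over `F` of `y² = x³ + A x² + B x` -/
def Loc (F : Type) [Field F] (A B z : ℤ) : Prop :=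
  ∃ x y r : F, x ≠ 0 ∧ y ^ 2 = x ^ 3 + (A : F) * x ^ 2 + (B : F) * x ∧ x = (z : F) * r ^ 2

/-- the Selmer group of the isogeny of degree two onto `y² = x³ + A x² + B x`, a subgroup of `ℚ*/ℚ*²`
which is described by squarefree integers -/
def Sel (A B : ℤ) : Set ℤ :=
  {z | Squarefree z ∧ (∀ (p : ℕ) [Fact p.Prime], Loc ℚ_[p] A B z) ∧ Loc ℝ A B z}

/-- the Selmer group of the isogeny onto `E_D : y² = x³ + a D x² + b D² x` -/
def SelDual (a b D : ℤ) : Set ℤ := Sel (a * D) (b * D ^ 2)

/-- the Selmer group of the isogeny from `E_D` onto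
`E_D' : y² = x³ - 2 a D x² + (a² - 4 b) D² x` -/
def SelPhi (a b D : ℤ) : Set ℤ := Sel (-2 * a * D) ((a ^ 2 - 4 * b) * D ^ 2)

/-- the classes which are supported on the primes dividing `2 b (a² - 4 b)` and satisfy the local
conditions of the Selmer group of the isogeny onto `E_D` at these primes and at the infinite place -/
def U (a b D : ℤ) : Set ℤ :=
  {u | Squarefree u ∧ (∀ p : ℕ, p.Prime → (p : ℤ) ∣ u → (p : ℤ) ∣ 2 * (b * (a ^ 2 - 4 * b))) ∧
    (∀ (p : ℕ) [Fact p.Prime], (p : ℤ) ∣ 2 * (b * (a ^ 2 - 4 * b)) →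
      Loc ℚ_[p] (a * D) (b * D ^ 2) u) ∧ Loc ℝ (a * D) (b * D ^ 2) u}

/-- the same for the isogeny from `E_D` onto `E_D'` -/
def U' (a b D : ℤ) : Set ℤ := U (-2 * a) (a ^ 2 - 4 * b) D

/-- the active primes -/
def Active (a b : ℤ) (p : ℕ) : Prop :=
  p.Prime ∧ p % 8 = 1 ∧ ¬ (p : ℤ) ∣ b * (a ^ 2 - 4 * b) ∧
    ∀ l : ℕ, l.Prime → (l : ℤ) ∣ b * (a ^ 2 - 4 * b) → IsSquare (l : ZMod p)

/-- the passive primes -/
def Passive (a b : ℤ) (p : ℕ) : Prop :=
  p.Prime ∧ ¬ IsSquare ((b : ℤ) : ZMod p) ∧ ¬ IsSquare ((a ^ 2 - 4 * b : ℤ) : ZMod p)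

/-- the class: squarefree, all prime factors active or passive -/
def Class (a b D : ℤ) : Prop :=
  Squarefree D ∧ ∀ p : ℕ, p.Prime → (p : ℤ) ∣ D → Active a b p ∨ Passive a b p

open Classical in
/-- the active prime factors of `D` -/
noncomputable def S (a b D : ℤ) : Finset ℕ := D.natAbs.primeFactors.filter (Active a b)

open Classical in
/-- the number of the prime factors of `D` different from `p` which are not squares modulo `p` -/
noncomputable def nonres (D : ℤ) (p : ℕ) : ℕ :=
  (D.natAbs.primeFactors.filter fun r : ℕ => r ≠ p ∧ ¬ IsSquare (r : ZMod p)).card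

open Classical in
/-- `0` if `y ^ 4 + a y ^ 2 + b` has a root modulo `p`, and `1` otherwise -/
noncomputable def quart (a b : ℤ) (p : ℕ) : ZMod 2 :=
  if ∃ y : ZMod p, y ^ 4 + (a : ZMod p) * y ^ 2 + (b : ZMod p) = 0 then 0 else 1

open Classical in
/-- the matrix over `𝔽₂` with rows and columns indexed by the active prime factors of `D`: off the
diagonal the entry at `(p, p')` is `1` if `p'` is not a square modulo `p` and `0` otherwise; on the
diagonal it is the number of the prime factors of `D` different from `p` which are not squares modulo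
`p`, plus `1` if `y ^ 4 + a y ^ 2 + b` has no root modulo `p` -/
noncomputable def R (a b D : ℤ) : Matrix (S a b D) (S a b D) (ZMod 2) := Matrix.of fun i j =>
  if i = j then (nonres D i : ZMod 2) + quart a b i
  else if IsSquare ((j : ℕ) : ZMod (i : ℕ)) then 0 else 1

/-- the corank of the matrix `R a b D` -/
noncomputable def corank (a b D : ℤ) : ℕ :=
  Module.finrank (ZMod 2) (LinearMap.ker (R a b D).mulVecLin)

/-- the number of the primes which divide `2 b (a² - 4 b)` -/
def ω (a b : ℤ) : ℕ := (2 * (b * (a ^ 2 - 4 * b))).natAbs.primeFactors.card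

/-- the two Selmer groups of `E_D` are finite and have the orders `# U 2 ^ r` and `# U' 2 ^ r` -/
def Orders (a b D : ℤ) (r : ℕ) : Prop :=
  ((SelDual a b D).Finite ∧ (SelDual a b D).ncard = (U a b D).ncard * 2 ^ r) ∧
  ((SelPhi a b D).Finite ∧ (SelPhi a b D).ncard = (U' a b D).ncard * 2 ^ r)

/-- the number `2 ^ rank · # Ш[2]` of the curve `E_D` -/
noncomputable def size (a b D : ℤ) : ℕ :=
  2 ^ rank (a * D) (b * D ^ 2) * Nat.card (ShaTwo (a * D) (b * D ^ 2))

/-- the `2`-torsion of the Tate-Shafarevich group of `E_D` is finite and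
`2 ^ rank · # Ш[2] ≤ 4 ^ (ω + t)` -/
def Bounded (a b D : ℤ) (t : ℕ) : Prop :=
  Finite (ShaTwo (a * D) (b * D ^ 2)) ∧ size a b D ≤ 4 ^ (ω a b + t)

/-- different absolute values of members of the class -/
def Diff (a b : ℤ) {M : ℕ} (m : Fin M → ℤ) : Prop :=
  (∀ k, Class a b (m k)) ∧ Function.Injective fun k => |m k|

open Classical in
/-- the number of the positive `D ≤ X` of the class with the property `P` -/
noncomputable def count (a b : ℤ) (P : ℤ → Prop) (X : ℕ) : ℕ :=
  ((Icc 1 X).filter fun D : ℕ => Class a b D ∧ P D).card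

/-- the number `κ = (1 - 1/2) (1 - 1/8) (1 - 1/32) ⋯` -/
noncomputable def κ : ℝ := ∏' i : ℕ, (1 - (1 / 2 : ℝ) ^ (2 * i + 1))

/-- the limit law `κ / ((2 - 1) (4 - 1) ⋯ (2 ^ r - 1))` -/
noncomputable def α (r : ℕ) : ℝ := κ / ∏ i ∈ range r, ((2 : ℝ) ^ (i + 1) - 1)

/-- the orders of the Selmer groups -/
def OrdersLaw (a b : ℤ) : Prop := ∀ D : ℤ, Class a b D → Orders a b D (corank a b D)

/-- the parts supported on the bad primes -/
def BadParts (a b : ℤ) : Prop := ∀ D : ℤ, D ≠ 0 →
  (1 ≤ (U a b D).ncard ∧ (U a b D).ncard ≤ 2 ^ (ω a b + 1)) ∧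
  (1 ≤ (U' a b D).ncard ∧ (U' a b D).ncard ≤ 2 ^ (ω a b + 1))

/-- the rank and the `2`-torsion of the Tate-Shafarevich group -/
def ShaBound (a b : ℤ) : Prop := ∀ D : ℤ, Class a b D →
  4 * size a b D ≤ (SelDual a b D).ncard * (SelPhi a b D).ncard ∧ Bounded a b D (corank a b D)

/-- the joint law for the twists by `m_1 D, …, m_M D` -/
def JointLaw (a b : ℤ) : Prop := ∀ (M : ℕ) (m : Fin M → ℤ), Diff a b m → ∀ r : Fin M → ℕ,
  Tendsto (fun X : ℕ => (count a b (fun D => ∀ k, Orders a b (m k * D) (r k)) X : ℝ) /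
    (count a b (fun _ => True) X : ℝ)) atTop (nhds (∏ k, α (r k)))

/-- the ranks and the Tate-Shafarevich groups of the twists by `m_1 D, …, m_M D` -/
def JointBound (a b : ℤ) : Prop := ∀ (M : ℕ) (m : Fin M → ℤ), Diff a b m → ∀ t : ℕ, ∀ ε : ℝ, 0 < ε →
  ∀ᶠ X : ℕ in atTop, ((∑ r ∈ range (t + 1), α r) ^ M - ε) * (count a b (fun _ => True) X : ℝ) ≤
    (count a b (fun D => ∀ k, Bounded a b (m k * D) t) X : ℝ)

/-- the size of the class -/
def ClassSize (a b : ℤ) : Prop := ∃ (c δ : ℝ) (X₀ : ℕ), 0 < c ∧ 0 < δ ∧ ∀ X : ℕ, X₀ ≤ X →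
  c * X * (Real.log X) ^ (-1 + δ : ℝ) ≤ (count a b (fun _ => True) X : ℝ)

section proof

open Q283.GS
open Q283.GM (cR)
open Q44.TI
open scoped Classical

variable {a b : ℤ}

lemma E_eq (A B : ℤ) : E A B = Pool.Agent.Y668.Wt (A : ℚ) (B : ℚ) := rfl

lemma sel_eq (A B : ℤ) : Sel A B = SelS A B := rfl

lemma U_eq (D : ℤ) : U a b D = Un a b D := rfl

lemma class_iff (D : ℤ) : Class a b D ↔ Cla a b D := Iff.rfl

lemma corank_eq (D : ℤ) : corank a b D = crk a b (pr D) := rfl

lemma ω_eq : ω a b = (bad a b).card := rfl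

lemma mem_cnt {P : ℤ → Prop} {X D : ℕ} {i : DecidablePred fun D : ℕ => Class a b D ∧ P D} :
    D ∈ @Finset.filter ℕ (fun D : ℕ => Class a b D ∧ P D) i (Icc 1 X) ↔
      (1 ≤ D ∧ D ≤ X) ∧ Class a b D ∧ P D := by
  rw [Finset.mem_filter, Finset.mem_Icc]

lemma α_eq (r : ℕ) : α r = al r := by
  unfold α al
  have h : ∀ r, Y697.PQ.cf r = (∏ i ∈ range r, ((2 : ℝ) ^ (i + 1) - 1))⁻¹ := by
    intro r
    induction r with
    | zero => simp [Y697.PQ.cf]
    | succ r ih =>
      rw [show Y697.PQ.cf (r + 1) = Y697.PQ.cf r / (2 ^ (r + 1) - 1) from rfl, ih,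
        Finset.prod_range_succ, mul_inv, div_eq_mul_inv]
  rw [h, div_eq_mul_inv]
  rfl

lemma α_tail (k : ℕ) : 1 - ∑ r ∈ range (k + 1), α r ≤
    1 / ∏ i ∈ range (k + 1), ((2 : ℝ) ^ (i + 1) - 1) := by
  have h1 : ∀ r, α r = al r := α_eq
  simp only [h1]
  refine (tail_al k).trans (le_of_eq ?_)
  have h2 := α_eq (k + 1)
  unfold α al at h2
  have hc0 : (0 : ℝ) < Y703.CQ.c2 := lt_trans (by norm_num) Pool.Agent.Y948.CQ.t_C2.2.2.2.1
  have h3 : κ = Y703.CQ.c2 := rfl
  rw [h3, div_eq_mul_inv] at h2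
  rw [one_div]
  exact (mul_left_cancel₀ hc0.ne' h2).symm

/-- the statement on one twist -/
lemma main_one (hb : ¬ IsSquare b) (hc : ¬ IsSquare (a ^ 2 - 4 * b)) {D : ℤ} (hD : Class a b D) :
    Orders a b D (corank a b D) :=
  main_set hb hc (Cla.cl hD) (Cla.eq hD)

/-- the statement on the product of two members -/
lemma main_two (hb : ¬ IsSquare b) (hc : ¬ IsSquare (a ^ 2 - 4 * b)) {m D : ℤ}
    (hm : Class a b m) (hD : Class a b D) :
    Orders a b (m * D) (crk a b (symmDiff (pr D) (pr m))) :=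
  main_mul hb hc hm hD

lemma bd (hb : ¬ IsSquare b) (hc : ¬ IsSquare (a ^ 2 - 4 * b)) {D : ℤ} (hD : D ≠ 0) :
    (1 ≤ (U a b D).ncard ∧ (U a b D).ncard ≤ 2 ^ (ω a b + 1)) ∧
    (1 ≤ (U' a b D).ncard ∧ (U' a b D).ncard ≤ 2 ^ (ω a b + 1)) :=
  Un_bd (ne_of_nsq hb) (ne_of_nsq hc) hD

lemma sha (hb : ¬ IsSquare b) (hc : ¬ IsSquare (a ^ 2 - 4 * b)) {D : ℤ} (hD : D ≠ 0)
    (h1 : (SelDual a b D).Finite) (h2 : (SelPhi a b D).Finite) :
    Finite (ShaTwo (a * D) (b * D ^ 2)) ∧
    4 * size a b D ≤ (SelDual a b D).ncard * (SelPhi a b D).ncard :=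
  sha_main hb hc hD h1 h2

lemma bound (hb : ¬ IsSquare b) (hc : ¬ IsSquare (a ^ 2 - 4 * b)) {D : ℤ} (hD : D ≠ 0) {r : ℕ}
    (h : Orders a b D r) : Bounded a b D r := by
  obtain ⟨h1, h2⟩ := h
  obtain ⟨h3, h4⟩ := sha hb hc hD h1.1 h2.1
  rw [h1.2, h2.2] at h4
  exact ⟨h3, prod_bd (ne_of_nsq hb) (ne_of_nsq hc) hD h4⟩

lemma Bounded.mono {D : ℤ} {s t : ℕ} (hst : s ≤ t) (h : Bounded a b D s) : Bounded a b D t :=
  ⟨h.1, h.2.trans (Nat.pow_le_pow_right (by norm_num) (Nat.add_le_add_left hst _))⟩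

lemma ord_iff (hb : ¬ IsSquare b) (hc : ¬ IsSquare (a ^ 2 - 4 * b)) {m D : ℤ}
    (hm : Class a b m) (hD : Class a b D) (r : ℕ) :
    Orders a b (m * D) r ↔ crk a b (symmDiff (pr D) (pr m)) = r := by
  have h := main_two hb hc hm hD
  have h0 : m * D ≠ 0 := mul_ne_zero hm.1.ne_zero hD.1.ne_zero
  constructor
  · rintro ⟨⟨-, h1⟩, -⟩
    rw [h.1.2] at h1
    have h2 := Nat.eq_of_mul_eq_mul_left (Nat.lt_of_lt_of_le Nat.one_pos (bd hb hc h0).1.1) h1
    exact Nat.pow_right_injective le_rfl h2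
  · rintro rfl
    exact h

/-- the joint law -/
lemma joint (hb : ¬ IsSquare b) (hc : ¬ IsSquare (a ^ 2 - 4 * b)) {M : ℕ} (m : Fin M → ℤ)
    (hm : Diff a b m) (r : Fin M → ℕ) :
    Tendsto (fun X : ℕ => (count a b (fun D => ∀ k, Orders a b (m k * D) (r k)) X : ℝ) /
        (count a b (fun _ => True) X : ℝ)) atTop (nhds (∏ k, α (r k))) := by
  have e : ∏ k, α (r k) = cR r := by
    unfold cR
    exact Finset.prod_congr rfl fun k _ => α_eq (r k)
  rw [e]
  have hinj' : Function.Injective fun k => (m k).natAbs := by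
    intro k l h
    apply hm.2
    show |m k| = |m l|
    rw [Int.abs_eq_natAbs, Int.abs_eq_natAbs]
    have h' : (m k).natAbs = (m l).natAbs := h
    rw [h']
  refine (law hb hc m hm.1 hinj' r).congr fun X => ratio (fun D => ?_) (fun D => ?_) _
  · constructor
    · rintro ⟨hD, h⟩
      exact ⟨hD, fun k => (ord_iff hb hc (hm.1 k) hD (r k)).2 (h k)⟩
    · rintro ⟨hD, h⟩
      exact ⟨hD, fun k => (ord_iff hb hc (hm.1 k) hD (r k)).1 (h k)⟩
  · rw [and_true]
    exact Iff.rfl

lemma one_class : Class a b ((1 : ℕ) : ℤ) := by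
  refine ⟨by rw [Nat.cast_one]; exact squarefree_one, ?_⟩
  intro p hp hd
  exact absurd (Nat.dvd_one.1 (Int.natCast_dvd_natCast.1 hd)) hp.ne_one

end proof

/-- **The isogeny Selmer groups and the 2-torsion of the Tate-Shafarevich groups of twists.** -/
theorem result (a b : ℤ) (hb : ¬ IsSquare b) (hc : ¬ IsSquare (a ^ 2 - 4 * b)) :
    OrdersLaw a b ∧ BadParts a b ∧ ShaBound a b ∧ JointLaw a b ∧ HasSum α 1 ∧ JointBound a b ∧
    (∀ t : ℕ, 1 - ∑ r ∈ range (t + 1), α r ≤ 1 / ∏ i ∈ range (t + 1), ((2 : ℝ) ^ (i + 1) - 1)) ∧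
    (0.4194 < κ ∧ κ < 0.4195) ∧ ClassSize a b := by
  classical
  refine ⟨fun D hD => main_one hb hc hD, fun D hD => bd hb hc hD, fun D hD => ?_,
    fun M m hm r => joint hb hc m hm r, ?_, fun M m hm t ε hε => ?_,
    α_tail, ⟨Pool.Agent.Y948.CQ.t_C2.2.2.2.1, Pool.Agent.Y948.CQ.t_C2.2.2.2.2⟩, ?_⟩
  · have h := main_one hb hc hD
    exact ⟨(sha hb hc hD.1.ne_zero h.1.1 h.2.1).2, bound hb hc hD.1.ne_zero h⟩
  · have e : α = Q283.GS.al := funext α_eq
    rw [e]
    exact Q283.GS.hasSum_al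
  · have hsum : Tendsto (fun X : ℕ => ∑ r ∈ Fintype.piFinset fun _ : Fin M => range (t + 1),
        (count a b (fun D => ∀ k, Orders a b (m k * D) (r k)) X : ℝ) /
        (count a b (fun _ => True) X : ℝ)) atTop
        (nhds (∑ r ∈ Fintype.piFinset fun _ : Fin M => range (t + 1), ∏ j, α (r j))) :=
      tendsto_finsetSum _ fun r _ => joint hb hc m hm r
    have e1 : ∑ r ∈ Fintype.piFinset fun _ : Fin M => range (t + 1), ∏ j, α (r j) =
        (∑ r ∈ range (t + 1), α r) ^ M := by
      rw [← Finset.prod_univ_sum (fun _ : Fin M => range (t + 1)) fun _ r => α r, Finset.prod_const,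
        Finset.card_univ, Fintype.card_fin]
    rw [e1] at hsum
    have h2 := hsum.eventually (lt_mem_nhds (show (∑ r ∈ range (t + 1), α r) ^ M - ε <
      (∑ r ∈ range (t + 1), α r) ^ M by linarith))
    filter_upwards [h2, eventually_ge_atTop 1] with X hX hX1
    have hT : (0 : ℝ) < (count a b (fun _ => True) X : ℝ) := by
      have : 0 < count a b (fun _ => True) X := by
        unfold count
        rw [Finset.card_pos]
        exact ⟨1, (mem_cnt (a := a) (b := b) (P := fun _ => True)).2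
          ⟨⟨le_rfl, hX1⟩, one_class, trivial⟩⟩
      exact_mod_cast this
    rw [← Finset.sum_div, lt_div_iff₀ hT] at hX
    refine hX.le.trans ?_
    have h3 : ∑ r ∈ Fintype.piFinset fun _ : Fin M => range (t + 1),
        count a b (fun D => ∀ k, Orders a b (m k * D) (r k)) X ≤
        count a b (fun D => ∀ k, Bounded a b (m k * D) t) X := by
      unfold count
      rw [← Finset.card_biUnion]
      · refine Finset.card_le_card fun D hD => ?_
        obtain ⟨r, hr, hD⟩ := Finset.mem_biUnion.1 hD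
        obtain ⟨hD1, hD2, hD3⟩ := (mem_cnt (a := a) (b := b)
          (P := fun D => ∀ k, Orders a b (m k * D) (r k))).1 hD
        refine (mem_cnt (a := a) (b := b) (P := fun D => ∀ k, Bounded a b (m k * D) t)).2
          ⟨hD1, hD2, fun k => ?_⟩
        have h0 : m k * (D : ℤ) ≠ 0 := mul_ne_zero (hm.1 k).1.ne_zero hD2.1.ne_zero
        have a5 := Finset.mem_range.1 (Fintype.mem_piFinset.1 hr k)
        exact Bounded.mono (by omega) (bound hb hc h0 (hD3 k))
      · intro r _ r' _ hrr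
        show Disjoint _ _
        rw [Finset.disjoint_left]
        intro D hD hD'
        apply hrr
        funext k
        obtain ⟨-, b1, b2⟩ := (mem_cnt (a := a) (b := b)
          (P := fun D => ∀ k, Orders a b (m k * D) (r k))).1 hD
        obtain ⟨-, -, b3⟩ := (mem_cnt (a := a) (b := b)
          (P := fun D => ∀ k, Orders a b (m k * D) (r' k))).1 hD'
        rw [← (ord_iff hb hc (hm.1 k) b1 (r k)).1 (b2 k),
          ← (ord_iff hb hc (hm.1 k) b1 (r' k)).1 (b3 k)]
    exact_mod_cast h3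
  · obtain ⟨c, δ, X₀, h1, h2, h3⟩ := Q44.TI.size hb hc
    refine ⟨c, δ, X₀, h1, h2, fun X hX => (h3 X hX).trans (le_of_eq ?_)⟩
    unfold count
    congr 1
    refine Q44.TI.cardf (fun D => ?_) _
    rw [and_true]
    exact Iff.rfl

end Pool.Agent.Results.MP_a43263_nt.TwoIsogenySelmerLaw
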